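import Pool.Agent.Y202.U.Stm

/-! Project Y202/U: LZ and L3. -/

namespace Pool.Agent.Y285.U

open Finset Pool.Agent.W788.NV Pool.Agent.Y202.U

section pair

variable {V : Type} [Fintype V] [DecidableEq V]

theorem selfadj (d : V → ℝ) (m : V → V → ℝ) (hs : ∀ a b, d a * m a b = d b * m b a)
    (W F : V → V → ℝ) :
    ∑ a, ∑ b, d a * d b * W a b * (∑ a', m a a' * F a' b + ∑ b', m b b' * F a b') =
      ∑ a, ∑ b, d a * d b * (∑ a', m a a' * W a' b + ∑ b', m b b' * W a b') * F a b := by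
  have h1 : ∑ a, ∑ b, d a * d b * W a b * (∑ a', m a a' * F a' b) =
      ∑ a, ∑ b, d a * d b * (∑ a', m a a' * W a' b) * F a b := by
    rw [Finset.sum_comm]
    conv_rhs => rw [Finset.sum_comm]
    refine Finset.sum_congr rfl fun b _ => ?_
    simp only [Finset.mul_sum, Finset.sum_mul]
    rw [Finset.sum_comm]
    refine Finset.sum_congr rfl fun a _ => Finset.sum_congr rfl fun a' _ => ?_
    have := hs a' a
    linear_combination (d b * W a' b * F a b) * this
  have h2 : ∑ a, ∑ b, d a * d b * W a b * (∑ b', m b b' * F a b') =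
      ∑ a, ∑ b, d a * d b * (∑ b', m b b' * W a b') * F a b := by
    refine Finset.sum_congr rfl fun a _ => ?_
    simp only [Finset.mul_sum, Finset.sum_mul]
    rw [Finset.sum_comm]
    refine Finset.sum_congr rfl fun b _ => Finset.sum_congr rfl fun b' _ => ?_
    have := hs b' b
    linear_combination (d a * W a b' * F a b) * this
  simp only [mul_add, add_mul, Finset.sum_add_distrib]
  rw [h1, h2]

theorem pair_deriv (d : V → ℝ) (m : V → V → ℝ) (hs : ∀ a b, d a * m a b = d b * m b a)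
    (W F : ℝ → V → V → ℝ) (hWs : ∀ r a b, W r a b = W r b a) (hW0 : ∀ r a, W r a a = 0)
    (hW : ∀ r a b, a ≠ b → HasDerivAt (fun r => W r a b)
      (-2 * W r a b + ∑ a', m a a' * W r a' b + ∑ b', m b b' * W r a b') r)
    (hF : ∀ u a b, a ≠ b → HasDerivAt (fun u => F u a b)
      (-2 * F u a b + ∑ a', m a a' * F u a' b + ∑ b', m b b' * F u a b') u) (T u : ℝ) :
    HasDerivAt (fun u => ∑ a, ∑ b, d a * d b * W (T - u) a b * F u a b)
      (∑ z, (2 * d z ^ 2 * ∑ b, m z b * W (T - u) z b) * F u z z) u := by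
  set AW : V → V → ℝ := fun a b => ∑ a', m a a' * W (T - u) a' b + ∑ b', m b b' * W (T - u) a b'
    with hAW
  set AF : V → V → ℝ := fun a b => ∑ a', m a a' * F u a' b + ∑ b', m b b' * F u a b' with hAF
  have hterm : ∀ a b, HasDerivAt (fun u => d a * d b * W (T - u) a b * F u a b)
      (d a * d b * W (T - u) a b * AF a b - d a * d b * AW a b * F u a b +
        (if a = b then d a * d b * AW a b * F u a b else 0)) u := by
    intro a b
    by_cases hab : a = b
    · subst hab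
      have : (fun u => d a * d a * W (T - u) a a * F u a a) = fun _ => (0 : ℝ) := by
        funext u; rw [hW0]; ring
      rw [this, if_pos rfl, hW0]
      have h0 : d a * d a * 0 * AF a a - d a * d a * AW a a * F u a a +
        d a * d a * AW a a * F u a a = 0 := by ring
      rw [h0]
      exact hasDerivAt_const u 0
    · have h1 := hW (T - u) a b hab
      have h2 : HasDerivAt (fun u => T - u) (-1) u := by
        simpa using (hasDerivAt_id u).const_sub T
      have h3 := (h1.comp u h2).const_mul (d a * d b)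
      have h4 := h3.mul (hF u a b hab)
      rw [if_neg hab]
      refine h4.congr_deriv ?_
      simp only [Function.comp, hAW, hAF]
      ring
  have hsum : HasDerivAt (fun u => ∑ a, ∑ b, d a * d b * W (T - u) a b * F u a b)
      (∑ a, ∑ b, (d a * d b * W (T - u) a b * AF a b - d a * d b * AW a b * F u a b +
        (if a = b then d a * d b * AW a b * F u a b else 0))) u := by
    have := HasDerivAt.fun_sum (u := (Finset.univ : Finset V)) (x := u)
      (A := fun a u => ∑ b, d a * d b * W (T - u) a b * F u a b)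
      (A' := fun a => ∑ b, (d a * d b * W (T - u) a b * AF a b - d a * d b * AW a b * F u a b +
        (if a = b then d a * d b * AW a b * F u a b else 0)))
      (fun a _ => HasDerivAt.fun_sum (fun b _ => hterm a b))
    exact this
  refine hsum.congr_deriv ?_
  have e1 := selfadj d m hs (W (T - u)) (F u)
  simp only [Finset.sum_add_distrib, Finset.sum_sub_distrib, Finset.sum_ite_eq, Finset.mem_univ,
    if_true]
  have e1' : ∑ a, ∑ b, d a * d b * W (T - u) a b * AF a b =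
      ∑ a, ∑ b, d a * d b * AW a b * F u a b := e1
  rw [e1', sub_self, zero_add]
  refine Finset.sum_congr rfl fun z _ => ?_
  have e2 : AW z z = 2 * ∑ b, m z b * W (T - u) z b := by
    simp only [hAW]
    have : ∑ a', m z a' * W (T - u) a' z = ∑ b, m z b * W (T - u) z b :=
      Finset.sum_congr rfl fun b _ => by rw [hWs (T - u) b z]
    rw [this]; ring
  rw [e2]; ring

theorem pair_cont (m : V → V → ℝ) (W : ℝ → V → V → ℝ) (hW0 : ∀ r a, W r a a = 0)
    (hW : ∀ r a b, a ≠ b → HasDerivAt (fun r => W r a b)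
      (-2 * W r a b + ∑ a', m a a' * W r a' b + ∑ b', m b b' * W r a b') r) (a b : V) :
    Continuous (fun r => W r a b) := by
  by_cases hab : a = b
  · subst hab
    have : (fun r => W r a a) = fun _ => (0 : ℝ) := by funext r; exact hW0 r a
    rw [this]; exact continuous_const
  · exact continuous_iff_continuousAt.mpr fun r => (hW r a b hab).continuousAt

theorem pair_int (d : V → ℝ) (m : V → V → ℝ) (hs : ∀ a b, d a * m a b = d b * m b a)
    (W F : ℝ → V → V → ℝ) (hWs : ∀ r a b, W r a b = W r b a) (hW0 : ∀ r a, W r a a = 0)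
    (hW : ∀ r a b, a ≠ b → HasDerivAt (fun r => W r a b)
      (-2 * W r a b + ∑ a', m a a' * W r a' b + ∑ b', m b b' * W r a b') r)
    (hF : ∀ u a b, a ≠ b → HasDerivAt (fun u => F u a b)
      (-2 * F u a b + ∑ a', m a a' * F u a' b + ∑ b', m b b' * F u a b') u)
    (hFc : ∀ z, Continuous fun u => F u z z) (T t0 t1 : ℝ) :
    ∑ a, ∑ b, d a * d b * W (T - t1) a b * F t1 a b =
      ∑ a, ∑ b, d a * d b * W (T - t0) a b * F t0 a b +
        ∫ u in t0..t1, ∑ z, (2 * d z ^ 2 * ∑ b, m z b * W (T - u) z b) * F u z z := by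
  have hd := fun u => pair_deriv d m hs W F hWs hW0 hW hF T u
  have hWc := fun a b => pair_cont m W hW0 hW a b
  have hc : Continuous fun u => ∑ z, (2 * d z ^ 2 * ∑ b, m z b * W (T - u) z b) * F u z z := by
    refine continuous_finsetSum _ fun z _ => ?_
    refine Continuous.mul (Continuous.mul continuous_const ?_) (hFc z)
    refine continuous_finsetSum _ fun b _ => ?_
    exact continuous_const.mul ((hWc z b).comp (continuous_const.sub continuous_id))
  rw [intervalIntegral.integral_eq_sub_of_hasDerivAt (fun u _ => hd u)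
    (hc.intervalIntegrable _ _)]
  ring

end pair

section model

variable {V : Type} [Fintype V] [DecidableEq V] {G : SimpleGraph V} {q : ℕ} {θ : ℝ} {Δ : ℕ}

theorem mm_sym (hS : SA G q θ Δ) (v w : V) :
    (dg G v : ℝ) * mrate G q θ (Sum.inr (v, w)) = dg G w * mrate G q θ (Sum.inr (w, v)) := by
  classical
  have hv : (dg G v : ℝ) ≠ 0 := by have := hS.d1 v; positivity
  have hw : (dg G w : ℝ) ≠ 0 := by have := hS.d1 w; positivity
  simp only [mrate, G.adj_comm v w]
  split_ifs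
  · field_simp
  · simp

theorem mm_nonneg (hS : SA G q θ Δ) (v w : V) : 0 ≤ mrate G q θ (Sum.inr (v, w)) :=
  (p_tot V G q θ (by have := hS.q2; omega) hS.t0.le hS.t1 hS.d1).1 _

theorem pt_lin {κ : Type} [Fintype κ] (c0 : ℝ) (F0 : (V → Fin q) → ℝ) (c : κ → ℝ)
    (F : κ → (V → Fin q) → ℝ) (t : ℝ) (x : V → Fin q) :
    pt G q θ t (fun y => c0 * F0 y + ∑ k, c k * F k y) x =
      c0 * pt G q θ t F0 x + ∑ k, c k * pt G q θ t (F k) x := by
  have h := p_mk.lin (V → Fin q) ((V × Fin q) ⊕ (V × V)) (Option κ) (mrate G q θ)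
    (act (V := V) (q := q)) (fun o => o.elim c0 c) (fun o => o.elim F0 F) x t
  simp only [Fintype.sum_option, Option.elim] at h
  exact h

theorem bi_deriv (hG : S_GE) (hS : SA G q θ Δ) (x0 : V → Fin q) (c : Fin q) (v : V) (t : ℝ) :
    HasDerivAt (fun t => bi G q θ x0 t c v)
      (-bi G q θ x0 t c v + ∑ w, mrate G q θ (Sum.inr (v, w)) * bi G q θ x0 t c w) t := by
  have h := p_mk.deriv (V → Fin q) ((V × Fin q) ⊕ (V × V)) (mrate G q θ)
    (act (V := V) (q := q)) (et c v) x0 t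
  refine h.congr_deriv ?_
  have e : gf (mrate G q θ) (act (V := V) (q := q)) (et c v) =
      fun y => (-1) * et c v y + ∑ w, mrate G q θ (Sum.inr (v, w)) * et c w y := by
    funext y
    rw [(hG V G q θ Δ hS y).1 c v]
    ring
  rw [e]
  have h2 := pt_lin (G := G) (q := q) (θ := θ) (-1) (et c v)
    (fun w => mrate G q θ (Sum.inr (v, w))) (fun w => et c w) t x0
  unfold pt at h2
  rw [h2]
  unfold bi pt
  ring

theorem hh_deriv (hG : S_GE) (hS : SA G q θ Δ) (x0 : V → Fin q) (a b : V) (hab : a ≠ b) (t : ℝ) :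
    HasDerivAt (fun t => pt G q θ t (hh a b) x0)
      (-2 * pt G q θ t (hh a b) x0 +
        ∑ a', mrate G q θ (Sum.inr (a, a')) * pt G q θ t (hh a' b) x0 +
        ∑ b', mrate G q θ (Sum.inr (b, b')) * pt G q θ t (hh a b') x0) t := by
  have h := p_mk.deriv (V → Fin q) ((V × Fin q) ⊕ (V × V)) (mrate G q θ)
    (act (V := V) (q := q)) (hh a b) x0 t
  refine h.congr_deriv ?_
  have e : gf (mrate G q θ) (act (V := V) (q := q)) (hh a b) =
      fun y => (-2) * hh a b y + ∑ s : V ⊕ V,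
        (Sum.elim (fun a' => mrate G q θ (Sum.inr (a, a')))
          (fun b' => mrate G q θ (Sum.inr (b, b'))) s) *
        (Sum.elim (fun a' => hh (q := q) a' b) (fun b' => hh a b') s) y := by
    funext y
    rw [(hG V G q θ Δ hS y).2 a b hab, Fintype.sum_sum_type]
    simp only [Sum.elim_inl, Sum.elim_inr]
    ring
  rw [e]
  have h2 := pt_lin (G := G) (q := q) (θ := θ) (-2) (hh a b)
    (fun s : V ⊕ V => Sum.elim (fun a' => mrate G q θ (Sum.inr (a, a')))
          (fun b' => mrate G q θ (Sum.inr (b, b'))) s)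
    (fun s : V ⊕ V => Sum.elim (fun a' => hh (q := q) a' b) (fun b' => hh a b') s) t x0
  unfold pt at h2 ⊢
  rw [h2, Fintype.sum_sum_type]
  simp only [Sum.elim_inl, Sum.elim_inr]
  ring

theorem hh_self (a : V) : hh (q := q) a a = fun _ => 1 - 1 / (q : ℝ) := by
  funext x; simp [hh]

theorem pt_hh_self (t : ℝ) (a : V) (x : V → Fin q) :
    pt G q θ t (hh a a) x = 1 - 1 / (q : ℝ) := by
  rw [hh_self]
  exact p_mk.cst _ _ _ _ _ _ _

theorem pt_zero (h : (V → Fin q) → ℝ) (x : V → Fin q) : pt G q θ 0 h x = h x := by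
  unfold pt; rw [p_mk.zero]

theorem pt_ZZ (t u : ℝ) (x : V → Fin q) : pt G q θ u (ZZ G q θ t) x =
    ∑ a, ∑ b, (dg G a : ℝ) * dg G b * Wp G q θ t a b * pt G q θ u (hh a b) x := by
  have h2 := pt_lin (G := G) (q := q) (θ := θ) 0 (fun _ => 0)
    (fun p : V × V => (dg G p.1 : ℝ) * dg G p.2 * Wp G q θ t p.1 p.2)
    (fun p : V × V => hh (q := q) p.1 p.2) u x
  have e : ZZ G q θ t = fun y => 0 * (fun _ : V → Fin q => (0 : ℝ)) y +
      ∑ p : V × V, (dg G p.1 : ℝ) * dg G p.2 * Wp G q θ t p.1 p.2 * hh p.1 p.2 y := by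
    funext y
    rw [ZZ, Fintype.sum_prod_type]
    ring
  rw [e, h2, Fintype.sum_prod_type]
  ring

theorem rh_sum (h2 : S_W2) (hS : SA G q θ Δ) (r : ℝ) :
    ∑ z, 2 * (dg G z : ℝ) ^ 2 * ∑ b, mrate G q θ (Sum.inr (z, b)) * Wp G q θ r z b =
      ∑ a, ∑ b, (dg G a : ℝ) * dg G b *
        (mrate G q θ (Sum.inr (a, b)) + mrate G q θ (Sum.inr (b, a))) * Wp G q θ r a b := by
  have hW := (h2 V G q θ Δ hS).2.1
  have e1 : ∀ a b : V, (dg G a : ℝ) * dg G b *
        (mrate G q θ (Sum.inr (a, b)) + mrate G q θ (Sum.inr (b, a))) * Wp G q θ r a b =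
      (dg G a : ℝ) ^ 2 * mrate G q θ (Sum.inr (a, b)) * Wp G q θ r a b +
      (dg G b : ℝ) ^ 2 * mrate G q θ (Sum.inr (b, a)) * Wp G q θ r b a := by
    intro a b
    have h := mm_sym hS a b
    rw [hW r b a]
    linear_combination ((dg G b : ℝ) - dg G a) * Wp G q θ r a b * h
  simp only [e1, Finset.sum_add_distrib]
  rw [Finset.sum_comm (f := fun a b => (dg G b : ℝ) ^ 2 * mrate G q θ (Sum.inr (b, a)) *
    Wp G q θ r b a), ← two_mul, Finset.mul_sum]
  refine Finset.sum_congr rfl fun z _ => ?_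
  rw [Finset.mul_sum, Finset.mul_sum]
  refine Finset.sum_congr rfl fun b _ => ?_
  ring

theorem Wp_cont (h2 : S_W2) (hS : SA G q θ Δ) (a b : V) : Continuous fun r => Wp G q θ r a b :=
  pair_cont (fun a b => mrate G q θ (Sum.inr (a, b))) (fun r a b => Wp G q θ r a b)
    (h2 V G q θ Δ hS).2.2.1 (h2 V G q θ Δ hS).2.2.2.2 a b

theorem lz (h2 : S_W2) (hG : S_GE) : S_LZ := by
  intro V _ _ G q θ Δ hS t u ht hu x
  have hW := h2 V G q θ Δ hS
  have key := pair_int (fun a => (dg G a : ℝ)) (fun a b => mrate G q θ (Sum.inr (a, b)))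
    (fun a b => mm_sym hS a b) (fun r a b => Wp G q θ r a b)
    (fun u a b => pt G q θ u (hh a b) x) hW.2.1 hW.2.2.1 hW.2.2.2.2
    (fun u a b hab => hh_deriv hG hS x a b hab u)
    (fun z => by simp only [pt_hh_self]; exact continuous_const) (t + u) 0 u
  simp only [pt_hh_self, pt_zero, sub_zero, add_sub_cancel_right] at key
  rw [pt_ZZ, key]
  unfold ZZ
  congr 1
  have e : ∀ r : ℝ, ∑ z, (2 * (dg G z : ℝ) ^ 2 * ∑ b, mrate G q θ (Sum.inr (z, b)) *
      Wp G q θ r z b) * (1 - 1 / (q : ℝ)) =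
      (1 - 1 / (q : ℝ)) * ∑ a, ∑ b, (dg G a : ℝ) * dg G b *
        (mrate G q θ (Sum.inr (a, b)) + mrate G q θ (Sum.inr (b, a))) * Wp G q θ r a b := by
    intro r
    rw [← rh_sum h2 hS r, Finset.mul_sum]
    refine Finset.sum_congr rfl fun z _ => ?_
    ring
  simp only [e]
  rw [intervalIntegral.integral_const_mul]
  congr 1
  have := intervalIntegral.integral_comp_sub_left (a := 0) (b := u)
    (fun r => ∑ a, ∑ b, (dg G a : ℝ) * dg G b *
        (mrate G q θ (Sum.inr (a, b)) + mrate G q θ (Sum.inr (b, a))) * Wp G q θ r a b) (t + u)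
  simp only [add_sub_cancel_right, sub_zero] at this
  exact this

theorem sum_et (hq : 2 ≤ q) (a b : V) (x : V → Fin q) :
    ∑ c, et c a x * et c b x = hh a b x := by
  have hq0 : (q : ℝ) ≠ 0 := by have : q ≠ 0 := by omega
                               exact_mod_cast this
  have e : ∀ c : Fin q, et c a x * et c b x =
      (if x a = c then (if x b = c then (1 : ℝ) else 0) else 0) -
        1 / (q : ℝ) * (if x a = c then 1 else 0) - 1 / (q : ℝ) * (if x b = c then 1 else 0) +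
        1 / (q : ℝ) * (1 / (q : ℝ)) := by
    intro c
    unfold et
    split_ifs <;> ring
  simp only [e, Finset.sum_add_distrib, Finset.sum_sub_distrib, ← Finset.mul_sum,
    Finset.sum_ite_eq, Finset.mem_univ, if_true, Finset.sum_const, Finset.card_univ,
    Fintype.card_fin, nsmul_eq_mul]
  unfold hh
  have : (if x b = x a then (1 : ℝ) else 0) = if x a = x b then 1 else 0 := by
    simp only [eq_comm]
  rw [this]
  field_simp
  ring

/-- the products of the one-point biases -/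
noncomputable def Fb (G : SimpleGraph V) (q : ℕ) (θ : ℝ) (x0 : V → Fin q) (u : ℝ) (a b : V) : ℝ :=
  ∑ c, bi G q θ x0 u c a * bi G q θ x0 u c b

theorem Fb_zero (hS : SA G q θ Δ) (x0 : V → Fin q) (a b : V) :
    Fb G q θ x0 0 a b = hh a b x0 := by
  unfold Fb bi
  simp only [pt_zero]
  exact sum_et hS.q2 a b x0

theorem bi_cont (hG : S_GE) (hS : SA G q θ Δ) (x0 : V → Fin q) (c : Fin q) (v : V) :
    Continuous fun t => bi G q θ x0 t c v :=
  continuous_iff_continuousAt.mpr fun t => (bi_deriv hG hS x0 c v t).continuousAt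

theorem Fb_cont (hG : S_GE) (hS : SA G q θ Δ) (x0 : V → Fin q) (a b : V) :
    Continuous fun t => Fb G q θ x0 t a b := by
  unfold Fb
  exact continuous_finsetSum _ fun c _ =>
    (bi_cont hG hS x0 c a).mul (bi_cont hG hS x0 c b)

theorem Fb_deriv (hG : S_GE) (hS : SA G q θ Δ) (x0 : V → Fin q) (a b : V) (t : ℝ) :
    HasDerivAt (fun t => Fb G q θ x0 t a b)
      (-2 * Fb G q θ x0 t a b + ∑ a', mrate G q θ (Sum.inr (a, a')) * Fb G q θ x0 t a' b +
        ∑ b', mrate G q θ (Sum.inr (b, b')) * Fb G q θ x0 t a b') t := by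
  have h : HasDerivAt (fun t => Fb G q θ x0 t a b)
      (∑ c, ((-bi G q θ x0 t c a + ∑ w, mrate G q θ (Sum.inr (a, w)) * bi G q θ x0 t c w) *
        bi G q θ x0 t c b + bi G q θ x0 t c a *
        (-bi G q θ x0 t c b + ∑ w, mrate G q θ (Sum.inr (b, w)) * bi G q θ x0 t c w))) t := by
    unfold Fb
    exact HasDerivAt.fun_sum fun c _ => (bi_deriv hG hS x0 c a t).mul (bi_deriv hG hS x0 c b t)
  refine h.congr_deriv ?_
  have e1 : ∑ a', mrate G q θ (Sum.inr (a, a')) * Fb G q θ x0 t a' b =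
      ∑ c, (∑ w, mrate G q θ (Sum.inr (a, w)) * bi G q θ x0 t c w) * bi G q θ x0 t c b := by
    unfold Fb
    simp only [Finset.mul_sum, Finset.sum_mul]
    rw [Finset.sum_comm]
    refine Finset.sum_congr rfl fun c _ => Finset.sum_congr rfl fun w _ => ?_
    ring
  have e2 : ∑ b', mrate G q θ (Sum.inr (b, b')) * Fb G q θ x0 t a b' =
      ∑ c, (∑ w, mrate G q θ (Sum.inr (b, w)) * bi G q θ x0 t c w) * bi G q θ x0 t c a := by
    unfold Fb
    simp only [Finset.mul_sum, Finset.sum_mul]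
    rw [Finset.sum_comm]
    refine Finset.sum_congr rfl fun c _ => Finset.sum_congr rfl fun w _ => ?_
    ring
  rw [e1, e2]
  unfold Fb
  rw [Finset.mul_sum, ← Finset.sum_add_distrib, ← Finset.sum_add_distrib]
  refine Finset.sum_congr rfl fun c _ => ?_
  ring

theorem rh_nonneg (h2 : S_W2) (hS : SA G q θ Δ) {r : ℝ} (hr : 0 ≤ r) (z : V) :
    0 ≤ rh G q θ r z := by
  unfold rh
  refine mul_nonneg (by positivity) (Finset.sum_nonneg fun b _ => ?_)
  exact mul_nonneg (mm_nonneg hS z b) ((h2 V G q θ Δ hS).1 r _ hr)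

theorem RR_nonneg (h2 : S_W2) (hS : SA G q θ Δ) (x0 : V → Fin q) {t : ℝ} (ht : 0 ≤ t) :
    0 ≤ RR G q θ x0 t := by
  unfold RR
  refine intervalIntegral.integral_nonneg ht fun u hu => ?_
  refine Finset.sum_nonneg fun z _ => ?_
  exact mul_nonneg (rh_nonneg h2 hS (by linarith [hu.1]) z)
    (Finset.sum_nonneg fun c _ => sq_nonneg _)

/-- the quadratic statistic of the initial state, in terms of the biases -/
theorem ZZ_eq (h2 : S_W2) (hG : S_GE) (hS : SA G q θ Δ) (x0 : V → Fin q) (t : ℝ) :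
    ZZ G q θ (2 * t) x0 =
      ∑ a, ∑ b, (dg G a : ℝ) * dg G b * Wp G q θ t a b * Fb G q θ x0 t a b -
        RR G q θ x0 t := by
  have hW := h2 V G q θ Δ hS
  have key := pair_int (fun a => (dg G a : ℝ)) (fun a b => mrate G q θ (Sum.inr (a, b)))
    (fun a b => mm_sym hS a b) (fun r a b => Wp G q θ r a b)
    (fun u a b => Fb G q θ x0 u a b) hW.2.1 hW.2.2.1 hW.2.2.2.2
    (fun u a b _ => Fb_deriv hG hS x0 a b u)
    (fun z => Fb_cont hG hS x0 z z) (2 * t) 0 t
  have e0 : 2 * t - t = t := by ring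
  simp only [e0, sub_zero, Fb_zero hS] at key
  have e1 : RR G q θ x0 t = ∫ u in (0 : ℝ)..t, ∑ z, (2 * (dg G z : ℝ) ^ 2 *
      ∑ b, mrate G q θ (Sum.inr (z, b)) * Wp G q θ (2 * t - u) z b) * Fb G q θ x0 u z z := by
    have := intervalIntegral.integral_comp_sub_left (a := 0) (b := t)
      (fun u => ∑ z, (2 * (dg G z : ℝ) ^ 2 *
      ∑ b, mrate G q θ (Sum.inr (z, b)) * Wp G q θ (2 * t - u) z b) * Fb G q θ x0 u z z) t
    simp only [sub_self, sub_zero] at this
    rw [← this]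
    unfold RR
    refine intervalIntegral.integral_congr fun u _ => ?_
    refine Finset.sum_congr rfl fun z _ => ?_
    have e2 : 2 * t - (t - u) = t + u := by ring
    rw [e2]
    unfold rh Fb
    congr 1
    refine Finset.sum_congr rfl fun c _ => ?_
    ring
  rw [e1, key]
  unfold ZZ
  ring

theorem quad_le (h2 : S_W2) (hB : S_WB) (hS : SA G q θ Δ) (x0 : V → Fin q) {t : ℝ}
    (ht : 0 ≤ t) :
    ∑ a, ∑ b, (dg G a : ℝ) * dg G b * Wp G q θ t a b * Fb G q θ x0 t a b ≤
      4 * (Δ : ℝ) ^ 3 * BB G q θ x0 t := by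
  have hW := h2 V G q θ Δ hS
  have hb := fun a => (hB V G q θ Δ hS t 0 ht le_rfl).1 a
  have hWn : ∀ a b, 0 ≤ Wp G q θ t a b := fun a b => hW.1 t _ ht
  set β : V → ℝ := fun a => ∑ c, (bi G q θ x0 t c a) ^ 2 with hβ
  have hβ0 : ∀ a, 0 ≤ β a := fun a => Finset.sum_nonneg fun c _ => sq_nonneg _
  have hF : ∀ a b, Fb G q θ x0 t a b ≤ (β a + β b) / 2 := by
    intro a b
    unfold Fb
    rw [hβ, ← Finset.sum_add_distrib, Finset.sum_div]
    refine Finset.sum_le_sum fun c _ => ?_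
    nlinarith [sq_nonneg (bi G q θ x0 t c a - bi G q θ x0 t c b)]
  have h1 : ∑ a, ∑ b, (dg G a : ℝ) * dg G b * Wp G q θ t a b * Fb G q θ x0 t a b ≤
      ∑ a, ∑ b, ((dg G a : ℝ) * dg G b * Wp G q θ t a b * (β a / 2) +
        (dg G a : ℝ) * dg G b * Wp G q θ t a b * (β b / 2)) := by
    refine Finset.sum_le_sum fun a _ => Finset.sum_le_sum fun b _ => ?_
    have h0 : 0 ≤ (dg G a : ℝ) * dg G b * Wp G q θ t a b :=
      mul_nonneg (by positivity) (hWn a b)
    have := mul_le_mul_of_nonneg_left (hF a b) h0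
    linarith
  have h3 : ∑ a, ∑ b, (dg G a : ℝ) * dg G b * Wp G q θ t a b * (β b / 2) =
      ∑ a, ∑ b, (dg G a : ℝ) * dg G b * Wp G q θ t a b * (β a / 2) := by
    rw [Finset.sum_comm]
    refine Finset.sum_congr rfl fun a _ => Finset.sum_congr rfl fun b _ => ?_
    rw [hW.2.1 t b a]
    ring
  have h4 : ∑ a, ∑ b, ((dg G a : ℝ) * dg G b * Wp G q θ t a b * (β a / 2) +
        (dg G a : ℝ) * dg G b * Wp G q θ t a b * (β b / 2)) =
      ∑ a, (dg G a : ℝ) * β a * ∑ b, (dg G b : ℝ) * Wp G q θ t a b := by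
    simp only [Finset.sum_add_distrib]
    rw [h3, ← Finset.sum_add_distrib]
    refine Finset.sum_congr rfl fun a _ => ?_
    rw [Finset.mul_sum, ← Finset.sum_add_distrib]
    refine Finset.sum_congr rfl fun b _ => ?_
    ring
  have h5 : ∑ a, (dg G a : ℝ) * β a * ∑ b, (dg G b : ℝ) * Wp G q θ t a b ≤
      ∑ a, 4 * (Δ : ℝ) ^ 3 * β a := by
    refine Finset.sum_le_sum fun a _ => ?_
    have hda : (dg G a : ℝ) ≤ Δ := by exact_mod_cast hS.dD a
    have hx : 0 ≤ (dg G a : ℝ) * β a := mul_nonneg (by positivity) (hβ0 a)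
    calc (dg G a : ℝ) * β a * ∑ b, (dg G b : ℝ) * Wp G q θ t a b
        ≤ (dg G a : ℝ) * β a * (4 * (Δ : ℝ) ^ 2) := mul_le_mul_of_nonneg_left (hb a) hx
      _ ≤ ((Δ : ℝ) * β a) * (4 * (Δ : ℝ) ^ 2) := by
          refine mul_le_mul_of_nonneg_right ?_ (by positivity)
          exact mul_le_mul_of_nonneg_right hda (hβ0 a)
      _ = 4 * (Δ : ℝ) ^ 3 * β a := by ring
  have h6 : ∑ a, 4 * (Δ : ℝ) ^ 3 * β a = 4 * (Δ : ℝ) ^ 3 * BB G q θ x0 t := by
    rw [← Finset.mul_sum, hβ, BB, Finset.sum_comm]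
  linarith

/-- the integrand of LZ -/
noncomputable def Cr (G : SimpleGraph V) (q : ℕ) (θ : ℝ) (r : ℝ) : ℝ :=
  ∑ a, ∑ b, (dg G a : ℝ) * dg G b *
        (mrate G q θ (Sum.inr (a, b)) + mrate G q θ (Sum.inr (b, a))) * Wp G q θ r a b

theorem Cr_cont (h2 : S_W2) (hS : SA G q θ Δ) : Continuous (Cr G q θ) := by
  unfold Cr
  refine continuous_finsetSum _ fun a _ => continuous_finsetSum _ fun b _ => ?_
  exact continuous_const.mul (Wp_cont h2 hS a b)

theorem Cr_ge (h2 : S_W2) (hB : S_WB) (hS : SA G q θ Δ) {t r : ℝ} (ht : 0 ≤ t)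
    (h1 : 2 * t ≤ r) (h1' : r ≤ 2 * t + 2) : Real.exp (-4) * WW G q θ t ≤ Cr G q θ r := by
  have hW := h2 V G q θ Δ hS
  have e : Cr G q θ r = ∑ a, ∑ b, (dg G a : ℝ) * dg G b * (Wp G q θ (r / 2) a b) ^ 2 := by
    have := (hB V G q θ Δ hS (r / 2) 0 (by linarith) le_rfl).2.2.2
    rw [← this]
    unfold Cr
    have : 2 * (r / 2) = r := by ring
    rw [this]
  rw [e]
  unfold WW
  rw [Finset.mul_sum]
  refine Finset.sum_le_sum fun a _ => ?_
  rw [Finset.mul_sum]
  refine Finset.sum_le_sum fun b _ => ?_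
  have hu : 0 ≤ r / 2 - t := by linarith
  have h3 := (hB V G q θ Δ hS t (r / 2 - t) ht hu).2.1 a b
  have e1 : t + (r / 2 - t) = r / 2 := by ring
  rw [e1] at h3
  have hwn : 0 ≤ Wp G q θ t a b := hW.1 t _ ht
  have h4 : Real.exp (-2) * Wp G q θ t a b ≤ Wp G q θ (r / 2) a b := by
    refine le_trans (mul_le_mul_of_nonneg_right ?_ hwn) h3
    exact Real.exp_le_exp.mpr (by linarith)
  have h5 : 0 ≤ Real.exp (-2) * Wp G q θ t a b := mul_nonneg (Real.exp_pos _).le hwn
  have h6 : Real.exp (-4) * (Wp G q θ t a b) ^ 2 ≤ (Wp G q θ (r / 2) a b) ^ 2 := by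
    have : Real.exp (-4) * (Wp G q θ t a b) ^ 2 = (Real.exp (-2) * Wp G q θ t a b) ^ 2 := by
      rw [mul_pow, ← Real.exp_nat_mul]
      norm_num
    rw [this]
    exact pow_le_pow_left₀ h5 h4 2
  have hda : (1 : ℝ) ≤ dg G a := by exact_mod_cast hS.d1 a
  have hdb : (1 : ℝ) ≤ dg G b := by exact_mod_cast hS.d1 b
  have hdd : (1 : ℝ) ≤ (dg G a : ℝ) * dg G b := by nlinarith
  calc Real.exp (-4) * (Wp G q θ t a b) ^ 2 ≤ (Wp G q θ (r / 2) a b) ^ 2 := h6
    _ = 1 * (Wp G q θ (r / 2) a b) ^ 2 := by ring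
    _ ≤ _ := mul_le_mul_of_nonneg_right hdd (sq_nonneg _)

theorem mean_add_const {μ : (V → Fin q) → ℝ} (hμ : ∑ x, μ x = 1) (f : (V → Fin q) → ℝ) (K : ℝ) :
    mean μ (fun x => f x + K) = mean μ f + K := by
  unfold mean
  simp only [mul_add, Finset.sum_add_distrib, ← Finset.sum_mul, hμ, one_mul]

theorem mean_ZZ_nonneg (h2 : S_W2) (hL2 : S_L2) (hS : SA G q θ Δ) {μ : (V → Fin q) → ℝ}
    (hμ : IsStat G q θ μ) {s : ℝ} (hs : 0 ≤ s) : 0 ≤ mean μ (ZZ G q θ s) := by
  have e : mean μ (ZZ G q θ s) =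
      ∑ a, ∑ b, (dg G a : ℝ) * dg G b * Wp G q θ s a b * mean μ (hh (q := q) a b) := by
    unfold mean ZZ
    simp only [Finset.mul_sum]
    rw [Finset.sum_comm]
    refine Finset.sum_congr rfl fun a _ => ?_
    rw [Finset.sum_comm]
    refine Finset.sum_congr rfl fun b _ => Finset.sum_congr rfl fun x _ => ?_
    ring
  rw [e]
  refine Finset.sum_nonneg fun a _ => Finset.sum_nonneg fun b _ => ?_
  exact mul_nonneg (mul_nonneg (by positivity) ((h2 V G q θ Δ hS).1 s _ hs))
    ((hL2 V G q θ Δ hS μ hμ).1 a b)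

theorem l3 (h2 : S_W2) (hB : S_WB) (hG : S_GE) (hL2 : S_L2) (hz : S_LZ) : S_L3 := by
  intro q θ Δ hq hθ hθ1
  refine ⟨Real.exp (-4), 4 * (Δ : ℝ) ^ 3, Real.exp_pos _, by positivity, ?_⟩
  intro V _ _ G x0 μ hS hμ t ht
  refine ⟨?_, RR_nonneg h2 hS x0 ht⟩
  have hlaw := p_law V G q θ (by omega) hθ hθ1 hS.d1
  have hμ1 : ∑ x, μ x = 1 := hμ.2.1
  -- both means at time `2 t`
  set K1 : ℝ := (1 - 1 / (q : ℝ)) * ∫ r in t..(t + t), ∑ a, ∑ b, (dg G a : ℝ) * dg G b *
        (mrate G q θ (Sum.inr (a, b)) + mrate G q θ (Sum.inr (b, a))) * Wp G q θ r a b with hK1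
  have e1 : mean μ (ZZ G q θ t) = mean μ (ZZ G q θ (2 * t)) + K1 := by
    rw [← hlaw.2.2 μ hμ t (ZZ G q θ t), ← mean_add_const hμ1]
    congr 1
    funext x
    rw [hz V G q θ Δ hS t t ht ht x, two_mul]
  have e2 : mean (law G q θ x0 t) (ZZ G q θ t) = ZZ G q θ (2 * t) x0 + K1 := by
    rw [hlaw.2.1, hz V G q θ Δ hS t t ht ht x0, two_mul]
  rw [e1, e2]
  -- the stationary part
  set K2 : ℝ := (1 - 1 / (q : ℝ)) * ∫ r in (2 * t)..(2 * t + 2), Cr G q θ r with hK2
  have e3 : mean μ (ZZ G q θ (2 * t)) = mean μ (ZZ G q θ (2 * t + 2)) + K2 := by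
    rw [← hlaw.2.2 μ hμ 2 (ZZ G q θ (2 * t)), ← mean_add_const hμ1]
    congr 1
    funext x
    rw [hz V G q θ Δ hS (2 * t) 2 (by linarith) (by norm_num) x]
    rfl
  have hi : Real.exp (-4) * WW G q θ t * 2 ≤ ∫ r in (2 * t)..(2 * t + 2), Cr G q θ r := by
    have h1 : ∫ _r in (2 * t)..(2 * t + 2), Real.exp (-4) * WW G q θ t =
        Real.exp (-4) * WW G q θ t * 2 := by
      rw [intervalIntegral.integral_const, smul_eq_mul]
      ring
    rw [← h1]
    refine intervalIntegral.integral_mono_on (by linarith) intervalIntegrable_const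
      ((Cr_cont h2 hS).intervalIntegrable _ _) ?_
    intro r hr
    exact Cr_ge h2 hB hS ht hr.1 hr.2
  have hWW : 0 ≤ WW G q θ t := by
    unfold WW
    exact Finset.sum_nonneg fun a _ => Finset.sum_nonneg fun b _ => sq_nonneg _
  have hq2 : (1 : ℝ) / 2 ≤ 1 - 1 / (q : ℝ) := by
    have : (2 : ℝ) ≤ q := by exact_mod_cast hq
    have h3 : 1 / (q : ℝ) ≤ 1 / 2 := one_div_le_one_div_of_le (by norm_num) this
    linarith
  have hK2' : Real.exp (-4) * WW G q θ t ≤ K2 := by
    have h0 : 0 ≤ ∫ r in (2 * t)..(2 * t + 2), Cr G q θ r := by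
      refine le_trans ?_ hi
      have := mul_nonneg (Real.exp_pos (-4)).le hWW
      linarith
    have := mul_le_mul_of_nonneg_right hq2 h0
    rw [hK2]
    linarith
  have h4 := mean_ZZ_nonneg h2 hL2 hS hμ (s := 2 * t + 2) (by linarith)
  have h5 := ZZ_eq h2 hG hS x0 t
  have h6 := quad_le h2 hB hS x0 ht
  rw [e3, h5]
  linarith

end model

end Pool.Agent.Y285.U
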